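import Mathlib

/-! Clubs and normal functions in well-orders (MP_54abf9_lc, helper25). -/

open Cardinal Order Set

namespace H25CC2

/-- Recursion along a well-order, with a requirement depending on the index. -/
theorem rec_dep {P : Type*} (I : Type) [LinearOrder I] [WellFoundedLT I]
    (R : (i : I) → (Set.Iio i → P) → P → Prop) (h : ∀ i F, ∃ g, R i F g) :
    ∃ F : I → P, ∀ i, R i (fun j => F j.1) (F i) := by
  classical
  choose G hG using h
  let F : I → P := (wellFounded_lt (α := I)).fix fun i ih => G i fun j => ih j.1 j.2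
  have hF : ∀ i, F i = G i fun j => F j.1 := fun i => by
    exact WellFounded.fix_eq (wellFounded_lt (α := I)) (fun i ih => G i fun j => ih j.1 j.2) i
  refine ⟨F, fun i => ?_⟩
  rw [hF i]
  exact hG i fun j => F j.1

/-- A well-order of cofinality `ℵ₁` has a club of cardinality at most `ℵ₁`. -/
theorem exists_small_club (α : Type) [LinearOrder α] [WellFoundedLT α] (h : cof α = ℵ_ 1) :
    ∃ E : Set α, IsClub E ∧ #E ≤ ℵ_ 1 := by
  classical
  obtain ⟨S, hS, hSc⟩ := exists_cof_eq α
  have hne : NoTopOrder α := by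
    rw [← cof_ne_one_iff, h]
    exact (one_lt_aleph0.trans aleph0_lt_aleph_one).ne'
  have hnm : NoMaxOrder α := (noTopOrder_iff_noMaxOrder α).1 hne
  have hS' : ∀ z : α, ∃ s ∈ S, z < s := fun z => by
    obtain ⟨z', hz'⟩ := exists_gt z
    obtain ⟨s, hs, hzs⟩ := hS z'
    exact ⟨s, hs, hz'.trans_le hzs⟩
  let T : Set α := {z | IsLUB (S ∩ Iio z) z}
  have hT : #T ≤ #S := by
    let f : T → S := fun z => ⟨(wellFounded_lt (α := α)).min {s | s ∈ S ∧ (z : α) < s}
      (hS' z), ((wellFounded_lt (α := α)).min_mem {s | s ∈ S ∧ (z : α) < s} (hS' z)).1⟩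
    have hf : StrictMono f := by
      intro z z' hzz'
      have h1 : IsLUB (S ∩ Iio (z' : α)) z' := z'.2
      obtain ⟨s, hs, hzs⟩ := (lt_isLUB_iff h1).1 (show (z : α) < z' from hzz')
      have h2 : (f z : α) ≤ s :=
        (wellFounded_lt (α := α)).min_le (x := s) (s := {s | s ∈ S ∧ (z : α) < s}) ⟨hs.1, hzs⟩
      have h3 : (z' : α) < f z' :=
        ((wellFounded_lt (α := α)).min_mem {s | s ∈ S ∧ (z' : α) < s} (hS' z')).2
      exact (h2.trans_lt hs.2).trans h3
    exact Cardinal.mk_le_of_injective hf.injective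
  refine ⟨S ∪ T, ⟨?_, hS.mono subset_union_left⟩, ?_⟩
  · intro d hd hd0 _ a ha
    by_cases had : a ∈ d
    · exact hd had
    · right
      refine ⟨fun z hz => (show z < a from hz.2).le, fun b hb => ?_⟩
      by_contra hba
      rw [not_le] at hba
      obtain ⟨c, hc, hbc, hca⟩ := ha.exists_between hba
      have hca' : c < a := lt_of_le_of_ne hca fun h => had (h ▸ hc)
      rcases hd hc with hcS | hcT
      · exact absurd (hb ⟨hcS, hca'⟩) (not_le.2 hbc)
      · obtain ⟨s, hs, hbs⟩ := (lt_isLUB_iff (show IsLUB (S ∩ Iio c) c from hcT)).1 hbc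
        exact absurd (hb ⟨hs.1, (show s < c from hs.2).trans hca'⟩) (not_le.2 hbs)
  · refine (Cardinal.mk_union_le _ _).trans ?_
    have h1 : #S ≤ ℵ_ 1 := by rw [hSc, h]
    exact (add_le_add h1 (hT.trans h1)).trans
      (Cardinal.add_eq_self (aleph0_le_aleph 1)).le

/-- The range of a normal cofinal function is club. -/
theorem isClub_range {α β : Type*} [LinearOrder α] [WellFoundedLT α] [LinearOrder β]
    {f : α → β} (hf : IsNormal f) (hc : IsCofinal (range f)) : IsClub (range f) := by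
  refine ⟨?_, hc⟩
  intro s hs hs₀ _ a ha
  have hf' : (f ⁻¹' s).Nonempty := by
    obtain ⟨b, hb⟩ := hs₀
    obtain ⟨c, rfl⟩ := hs hb
    exact ⟨c, hb⟩
  obtain ⟨_, ⟨u, rfl⟩, hu⟩ := hc a
  have : Nonempty α := ⟨u⟩
  let := WellFoundedLT.toOrderBot α
  let := WellFoundedLT.conditionallyCompleteLinearOrderBot α
  have hfl : IsLUB (f ⁻¹' s) (sSup (f ⁻¹' s)) :=
    isLUB_csSup hf' ⟨u, fun b hb => hf.strictMono.le_iff_le.1 ((ha.1 hb).trans hu)⟩
  have ha' := hf.map_isLUB hfl hf'
  rw [image_preimage_eq_of_subset hs] at ha'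
  obtain rfl := ha.unique ha'
  exact mem_range_self _

/-- The preimage of a club under a normal cofinal function is club. -/
theorem isClub_preimage {α β : Type*} [LinearOrder α] [WellFoundedLT α] [LinearOrder β]
    [WellFoundedLT β] {f : α → β} (hf : IsNormal f) (hc : IsCofinal (range f))
    (hβ : cof β ≠ ℵ₀) {E : Set β} (hE : IsClub E) : IsClub (f ⁻¹' E) := by
  refine ⟨fun d hd hd0 _ a ha => ?_, fun a => ?_⟩
  · have h1 := hf.map_isLUB ha hd0
    exact hE.isLUB_mem (t := f '' d) (by rintro _ ⟨z, hz, rfl⟩; exact hd hz) (hd0.image f) h1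
  · obtain ⟨z, ⟨hz1, b, rfl⟩, hz2⟩ := (IsClub.inter hβ hE (isClub_range hf hc)).isCofinal (f a)
    exact ⟨b, hz1, hf.strictMono.le_iff_le.1 hz2⟩

end H25CC2
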