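import Pool.Agent.Helper25.CC2.Club
import Pool.Agent.Helper74.CC.Chang

open Cardinal Ordinal Filter Set Order

namespace H25CC2

/-- The well-order of type `ω_2`. -/
abbrev W : Type := (ℵ_ 2 : Cardinal.{0}).ord.ToType

/-- A sequence of length `ω_2` of functions from `ℕ` to a countable ordinal, strictly increasing
modulo finite sets and bounded on clubs below the points of cofinality `ω_1`. -/
def ClubBounded : Prop :=
  ∃ ζ < ω_ 1, ∃ x : W → ℕ → Ordinal.{0}, (∀ i m, x i m < ζ) ∧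
    (∀ i j, i < j → ∀ᶠ m in atTop, x i m < x j m) ∧
    ∀ ν : W, Order.cof (Iio ν) = ℵ_ 1 → ∃ c : Set (Iio ν), IsClub c ∧ ∀ i ∈ c, ∀ m, x i.1 m ≤ x ν m

/-- The order type of the part of a countable set below a point. -/
theorem exists_rank {M : Type} [LinearOrder M] [WellFoundedLT M] (D : Set M) (hD : D.Countable) :
    ∃ ζ < ω_ 1, ∃ r : M → Ordinal.{0}, (∀ a, r a < ζ) ∧ Monotone r ∧
      ∀ a b, ∀ z ∈ D, a ≤ z → z < b → r a < r b := by
  let k : D → Ordinal.{0} := fun z => typein (α := D) (· < ·) z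
  let r : M → Ordinal.{0} := fun a => ⨆ z : {z : D // (z : M) < a}, Order.succ (k z.1)
  have hk : ∀ z z' : D, z < z' → k z < k z' := fun z z' h => (typein_lt_typein (· < ·)).2 h
  have hkr : ∀ a, ∀ z : D, (z : M) < a → k z < r a := fun a z hz =>
    (Order.lt_succ _).trans_le
      (Ordinal.le_iSup (fun z : {z : D // (z : M) < a} => Order.succ (k z.1)) ⟨z, hz⟩)
  have hrle : ∀ a, ∀ o : Ordinal.{0}, (∀ z : D, (z : M) < a → k z < o) → r a ≤ o := fun a o h =>
    Ordinal.iSup_le fun z => Order.succ_le_of_lt (h z.1 z.2)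
  have hz1 : Ordinal.type (α := D) (· < ·) < ω_ 1 := by
    rw [← ord_aleph, Cardinal.lt_ord, Ordinal.card_type, ← succ_aleph0, Order.lt_succ_iff]
    exact Cardinal.mk_le_aleph0_iff.2 hD
  refine ⟨Order.succ (Ordinal.type (α := D) (· < ·)), (isSuccLimit_omega 1).succ_lt hz1, r,
    fun a => Order.lt_succ_of_le (hrle a _ fun z _ => typein_lt_type (· < ·) z), ?_, ?_⟩
  · intro a b hab
    exact hrle a _ fun z hz => hkr b z (hz.trans_le hab)
  · intro a b z hz haz hzb
    refine lt_of_le_of_lt (hrle a (k ⟨z, hz⟩) fun z' hz' => ?_) (hkr b ⟨z, hz⟩ hzb)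
    exact hk z' ⟨z, hz⟩ (show (z' : M) < z from hz'.trans_le haz)

theorem core {M : Type} [LinearOrder M] [WellFoundedLT M] (D : Set M) (hD : D.Countable)
    (F : M → ℕ → M) (hF : ∀ a b, a < b → ∀ᶠ n in atTop, F a n < F b n)
    (E : (b : M) → Set (Iio b)) (hE : ∀ b, Order.cof (Iio b) = ℵ_ 1 → IsClub (E b))
    (hFE : ∀ b, Order.cof (Iio b) = ℵ_ 1 → ∀ a ∈ E b, ∀ n, F a.1 n ≤ F b n)
    (hX : ℵ_ 2 ≤ #{a : M | ∀ n, F a n ∈ D}) : ClubBounded := by
  classical
  obtain ⟨y, hy, hyD⟩ := H74CC.exists_strictMono (ℵ_ 2) _ hX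
  obtain ⟨ζ, hζ, r, hrζ, hrm, hrs⟩ := exists_rank D hD
  have hne : ∀ i : W, ({z | ∀ j < i, y j < z} : Set M).Nonempty := fun i => ⟨y i, fun j hj => hy hj⟩
  let e : W → M := fun i => (wellFounded_lt (α := M)).min {z | ∀ j < i, y j < z} (hne i)
  have he1 : ∀ i j, j < i → y j < e i := fun i =>
    (wellFounded_lt (α := M)).min_mem {z | ∀ j < i, y j < z} (hne i)
  have he2 : ∀ i z, (∀ j < i, y j < z) → e i ≤ z := fun i z hz =>
    (wellFounded_lt (α := M)).min_le (s := {z | ∀ j < i, y j < z}) hz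
  have he3 : ∀ i, e i ≤ y i := fun i => he2 i (y i) fun j hj => hy hj
  have hen : IsNormal e := by
    rw [isNormal_iff]
    refine ⟨fun i j hij => (he3 i).trans_lt (he1 j i hij), fun o ho a hoa => he2 o a fun j hj => ?_⟩
    obtain ⟨j', hj', hj'o⟩ := (not_covBy_iff hj).1 (ho.isSuccPrelimit j)
    exact (he1 j' j hj').trans_le (hoa j' hj'o)
  refine ⟨ζ, hζ, fun i m => r (F (e i) m), fun i m => hrζ _, fun i j hij => ?_, fun ν hν => ?_⟩
  · have h1 : ∀ᶠ m in atTop, F (e i) m ≤ F (y i) m := by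
      rcases (he3 i).eq_or_lt with h | h
      · rw [h]
        exact Eventually.of_forall fun m => le_rfl
      · exact (hF _ _ h).mono fun m hm => hm.le
    filter_upwards [h1, hF _ _ (he1 j i hij)] with m hm1 hm2
    exact hrs _ _ _ (hyD i m) hm1 hm2
  · have hntop : NoTopOrder (Iio ν) := by
      rw [← cof_ne_one_iff, hν]
      exact (one_lt_aleph0.trans aleph0_lt_aleph_one).ne'
    have hnm : NoMaxOrder (Iio ν) := (noTopOrder_iff_noMaxOrder _).1 hntop
    let eν : Iio ν → Iio (e ν) := fun x => ⟨e x.1, hen.strictMono x.2⟩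
    have hnν : IsNormal eν := hen.to_Iio ν
    have hcof : IsCofinal (range eν) := by
      rintro ⟨z, hz⟩
      have h1 : ¬ ∀ j < ν, y j < z := fun h => absurd (he2 ν z h) (not_le.2 hz)
      push Not at h1
      obtain ⟨j, hj, hzj⟩ := h1
      obtain ⟨j', hj'⟩ := exists_gt (⟨j, hj⟩ : Iio ν)
      refine ⟨eν j', mem_range_self _, ?_⟩
      exact (show z ≤ e j' from hzj.trans (he1 j'.1 j hj').le)
    have hcofe : Order.cof (Iio (e ν)) = ℵ_ 1 := by
      rw [← cof_congr_of_strictMono hnν.strictMono hcof, hν]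
    refine ⟨eν ⁻¹' E (e ν), isClub_preimage hnν hcof ?_ (hE _ hcofe), fun i hi m => ?_⟩
    · rw [hcofe]
      exact aleph0_lt_aleph_one.ne'
    · exact hrm (hFE (e ν) hcofe (eν i) hi m)

end H25CC2
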