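import Pool.Agent.Helper25.CC2.Club
import Pool.Agent.Helper74.CC.Chang

open Cardinal Ordinal Filter Set

namespace H25CC2

/-- Functions `f` with `f n < ω_(n+2)`. -/
def G2 : Type 1 := {f : ℕ → Ordinal.{0} // ∀ n : ℕ, f n < ω_ (n + 2 : ℕ)}

theorem dir2 (ι : Type) (hι : #ι ≤ ℵ_ ω) (F : ι → G2) (J : Set ι) (hJ : #J ≤ ℵ_ 1) :
    ∃ g : G2, (∀ i, ∀ᶠ n in atTop, (F i).1 n < g.1 n) ∧ ∀ j ∈ J, ∀ n, (F j).1 n ≤ g.1 n := by
  classical
  let F' : ι → H74CC.G := fun i => ⟨fun n => Nat.casesOn n 0 fun n => (F i).1 n, fun n => by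
    cases n with
    | zero => exact omega_pos _
    | succ n => exact (F i).2 n⟩
  obtain ⟨g', hg'⟩ := H74CC.dir ι hι F'
  have hreg : ∀ n : ℕ, (ℵ_ (n + 2 : ℕ)).IsRegular := fun n => by
    have := isRegular_aleph_succ ((n + 1 : ℕ) : Ordinal.{0})
    rwa [← natCast_succ] at this
  have hlt : ∀ n : ℕ, (ℵ_ 1 : Cardinal.{0}) < ℵ_ (n + 2 : ℕ) := fun n => by
    rw [aleph_lt_aleph]
    exact_mod_cast Nat.lt_of_lt_of_le (Nat.lt_succ_self 1) (Nat.le_add_left 2 n)
  refine ⟨⟨fun n => max (g'.1 (n + 1)) (⨆ j : J, (F j.1).1 n), fun n => max_lt ?_ ?_⟩, ?_, ?_⟩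
  · exact g'.2 (n + 1)
  · rw [← ord_aleph]
    refine iSup_lt_ord_of_isRegular (hreg n) (hJ.trans_lt (hlt n)) fun i => ?_
    rw [ord_aleph]
    exact (F i.1).2 n
  · intro i
    have h1 := (tendsto_add_atTop_nat 1).eventually (hg' i)
    exact h1.mono fun n hn => lt_of_lt_of_le hn (le_max_left _ _)
  · intro j hj n
    exact (Ordinal.le_iSup (fun j : J => (F j.1).1 n) ⟨j, hj⟩).trans (le_max_right _ _)

/-- The well-order of type `ω_(ω+1)`. -/
abbrev V : Type := (ℵ_ (ω + 1) : Cardinal.{0}).ord.ToType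

/-- A sequence of length `ω_(ω+1)`, strictly increasing modulo finite sets, which at the points of
cofinality `ω_1` bounds a club everywhere. -/
theorem exists_scale2 : ∃ (E : (b : V) → Set (Iio b)) (F : V → ℕ → Ordinal.{0}),
    (∀ b, Order.cof (Iio b) = ℵ_ 1 → IsClub (E b)) ∧ (∀ a n, F a n < ω_ ω) ∧
    (∀ a b, a < b → ∀ᶠ n in atTop, F a n < F b n) ∧
    ∀ b, Order.cof (Iio b) = ℵ_ 1 → ∀ a ∈ E b, ∀ n, F a.1 n ≤ F b n := by
  classical
  have hE : ∀ b : V, ∃ E : Set (Iio b), #E ≤ ℵ_ 1 ∧ (Order.cof (Iio b) = ℵ_ 1 → IsClub E) := by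
    intro b
    by_cases hb : Order.cof (Iio b) = ℵ_ 1
    · obtain ⟨E, h1, h2⟩ := exists_small_club (Iio b) hb
      exact ⟨E, h2, fun _ => h1⟩
    · exact ⟨∅, by simp, fun h => absurd h hb⟩
  choose E hE1 hE2 using hE
  obtain ⟨F, hF⟩ := rec_dep (P := G2) V
    (fun b F g => (∀ a, ∀ᶠ n in atTop, (F a).1 n < g.1 n) ∧ ∀ a ∈ E b, ∀ n, (F a).1 n ≤ g.1 n) (by
      intro b F
      apply dir2 _ _ F (E b) (hE1 b)
      have h1 : #(Set.Iio b) < ℵ_ (ω + 1) := by
        have := Cardinal.mk_Iio_lt b (by rw [mk_toType, card_ord, type_toType])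
        rwa [mk_toType, card_ord] at this
      have h2 : #(Set.Iio b) < Order.succ (ℵ_ ω) := by
        rw [succ_aleph]
        exact h1
      exact Order.lt_succ_iff.1 h2)
  refine ⟨E, fun a n => (F a).1 n, hE2, fun a n => ((F a).2 n).trans ?_, fun a b hab => ?_,
    fun b _ a ha n => (hF b).2 a ha n⟩
  · rw [omega_lt_omega]
    exact natCast_lt_omega0 _
  · exact (hF b).1 ⟨a, hab⟩

/-- From Chang's conjecture: `ℵ_2` many of the functions take values in one countable set. -/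
theorem chang_countable (h : H74CC.Chang (ℵ_ (ω + 1)) (ℵ_ ω) (ℵ_ 2) (ℵ_ 1)) (Φ : V → ℕ → V)
    (hΦ : ∀ a m, ((Φ a m).toOrd : Ordinal.{0}) < ω_ ω) :
    ∃ D : Set V, D.Countable ∧ ℵ_ 2 ≤ #{a : V | ∀ n, Φ a n ∈ D} := by
  classical
  let B : Set V := {x | (x.toOrd : Ordinal.{0}) < ω_ ω}
  have hB : #B = ℵ_ ω := by
    have e : B ≃ (ω_ ω : Ordinal.{0}).ToType :=
      { toFun := fun x => ToType.mk ⟨(x.1.toOrd : Ordinal.{0}), x.2⟩
        invFun := fun y => ⟨ToType.mk ⟨(y.toOrd : Ordinal.{0}), by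
          rw [ord_aleph]
          exact (show (y.toOrd : Ordinal.{0}) < ω_ ω from y.toOrd.2).trans
            (omega_lt_omega.2 (Order.lt_add_one_iff.2 le_rfl))⟩, by
            change ((ToType.mk.symm (ToType.mk _) : Set.Iio _) : Ordinal.{0}) < ω_ ω
            rw [OrderIso.symm_apply_apply]
            exact y.toOrd.2⟩
        left_inv := fun x => by
          apply Subtype.ext
          apply ToType.mk.symm.injective
          apply Subtype.ext
          simp
        right_inv := fun y => by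
          apply ToType.mk.symm.injective
          apply Subtype.ext
          simp }
    rw [Cardinal.mk_congr e, mk_toType, card_omega]
  let _inst : H74CC.L₀.Structure V :=
    { funMap := fun {n} m x => if hn : 0 < n then Φ (x ⟨0, hn⟩) m else Φ (ToType.mk ⟨0, by
        rw [ord_aleph]
        exact omega_pos _⟩) m
      RelMap := fun {n} r _ => nomatch r }
  obtain ⟨X, hX1, hX2⟩ := h H74CC.L₀ V B H74CC.card_L₀ (by rw [mk_toType, card_ord]) hB
  have hcl : ∀ a ∈ X, ∀ m, Φ a m ∈ X := by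
    intro a ha m
    have h1 := X.toSubstructure.fun_mem (n := 1) (show H74CC.L₀.Functions 1 from m) (fun _ => a)
      (fun _ => ha)
    exact h1
  have hXC : ∀ a ∈ (X : Set V), ∀ n, Φ a n ∈ (X : Set V) ∩ B := fun a ha n => ⟨hcl a ha n, hΦ a n⟩
  have hC : #((X : Set V) ∩ B : Set V) ≤ ℵ_ 1 := by
    rw [← hX2]
    exact Cardinal.mk_le_of_injective (f := fun x : ((X : Set V) ∩ B : Set V) =>
      (⟨⟨x.1, x.2.1⟩, x.2.2⟩ : {x : X // (x : V) ∈ B})) (fun x y hxy => by
        apply Subtype.ext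
        have h1 := congrArg (fun z => (z.1 : V)) hxy
        exact h1)
  have hXge : ℵ_ 2 ≤ #(X : Set V) := hX1.ge
  have he : Nonempty (((X : Set V) ∩ B : Set V) ↪ (ω_ 1 : Ordinal.{0}).ToType) := by
    rw [← Cardinal.le_def, mk_toType, card_omega]
    exact hC
  obtain ⟨e⟩ := he
  have hb : ∀ a : (X : Set V), ∃ b : (ω_ 1 : Ordinal.{0}).ToType,
      ∀ n, e ⟨Φ a n, hXC a a.2 n⟩ < b := by
    intro a
    have h1 : (⨆ n : ℕ, Order.succ ((e ⟨Φ a n, hXC a a.2 n⟩).toOrd : Ordinal.{0})) < ω_ 1 := by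
      apply Ordinal.iSup_lt_of_lt_cof
      · rw [isRegular_aleph_one.cof_omega_eq, mk_nat, ← aleph_zero, aleph_lt_aleph]
        exact zero_lt_one
      · intro n
        exact (isSuccLimit_omega 1).succ_lt (e ⟨Φ a n, hXC a a.2 n⟩).toOrd.2
    refine ⟨ToType.mk ⟨_, h1⟩, fun n => ?_⟩
    rw [← ToType.mk.symm.lt_iff_lt, OrderIso.symm_apply_apply, ← Subtype.coe_lt_coe]
    refine (Order.lt_succ _).trans_le ?_
    exact Ordinal.le_iSup
      (fun n : ℕ => Order.succ ((e ⟨Φ a n, hXC a a.2 n⟩).toOrd : Ordinal.{0})) n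
  choose b hb using hb
  obtain ⟨w, hw⟩ := Cardinal.infinite_pigeonhole_card b (ℵ_ 2) hXge
    (aleph0_le_aleph 2) (by
      rw [H74CC.aleph2_regular.cof_ord, mk_toType, card_omega]
      exact H74CC.aleph1_lt_aleph2)
  refine ⟨Subtype.val '' {c : ((X : Set V) ∩ B : Set V) | e c < w}, ?_, ?_⟩
  · apply Set.Countable.image
    have h1 : (Set.Iio w).Countable := by
      rw [← Set.countable_coe_iff, ← Cardinal.mk_le_aleph0_iff]
      have h2 : #(Set.Iio w) < ℵ_ 1 := by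
        have := Cardinal.mk_Iio_lt w (by rw [mk_toType, card_omega, ord_aleph, type_toType])
        rwa [mk_toType, card_omega] at this
      rw [← succ_aleph0 ] at h2
      exact Order.lt_succ_iff.1 h2
    exact h1.preimage e.injective
  · refine hw.trans ?_
    have h5 : Subtype.val '' (b ⁻¹' {w}) ⊆ {a : V | ∀ n, Φ a n ∈
        Subtype.val '' {c : ((X : Set V) ∩ B : Set V) | e c < w}} := by
      rintro _ ⟨a, ha, rfl⟩ n
      refine ⟨⟨Φ a n, hXC a a.2 n⟩, ?_, rfl⟩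
      have h6 := hb a n
      rw [Set.mem_preimage, Set.mem_singleton_iff] at ha
      rw [ha] at h6
      exact h6
    rw [← Cardinal.mk_image_eq (s := b ⁻¹' {w}) Subtype.val_injective]
    exact Cardinal.mk_le_mk_of_subset h5

end H25CC2
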