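import Pool.Agent.Helper25.CC2.Core

open Cardinal Ordinal Filter Set Order

namespace H25CC2

theorem cof_W : Order.cof W = ℵ_ 2 := by
  rw [cof_toType, H74CC.aleph2_regular.cof_ord]

theorem cof_W_ne : Order.cof W ≠ ℵ₀ := by
  rw [cof_W]
  exact (aleph0_lt_aleph_one.trans H74CC.aleph1_lt_aleph2).ne'

theorem noMax_W : NoMaxOrder W := by
  rw [← noTopOrder_iff_noMaxOrder, ← cof_ne_one_iff, cof_W]
  exact (one_lt_aleph0.trans (aleph0_lt_aleph_one.trans H74CC.aleph1_lt_aleph2)).ne'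

theorem nonempty_W : Nonempty W := by
  rw [← cof_ne_zero_iff, cof_W]
  exact (aleph0_pos.trans (aleph0_lt_aleph_one.trans H74CC.aleph1_lt_aleph2)).ne'

theorem isClub_Ioi (ν : W) : IsClub (Ioi ν) := by
  have := noMax_W
  refine ⟨fun d hd hd0 _ a ha => ?_, fun a => ?_⟩
  · obtain ⟨z, hz⟩ := hd0
    exact lt_of_lt_of_le (show ν < z from hd hz) (ha.1 hz)
  · obtain ⟨b, hb⟩ := exists_gt (max a ν)
    exact ⟨b, (le_max_right _ _).trans_lt hb, ((le_max_left _ _).trans_lt hb).le⟩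

/-- The points of countable cofinality form a stationary set. -/
theorem stat_zero : IsStationary {i : W | Order.cof (Iio i) = ℵ₀} := by
  classical
  intro t ht
  have := noMax_W
  have := nonempty_W
  have hgt : ∀ a : W, ∃ b ∈ t, a < b := fun a => by
    obtain ⟨a', ha'⟩ := exists_gt a
    obtain ⟨b, hb, hab⟩ := ht.isCofinal a'
    exact ⟨b, hb, ha'.trans_le hab⟩
  choose g hg1 hg2 using hgt
  let s : ℕ → W := fun n => Nat.rec (g (Classical.arbitrary W)) (fun _ a => g a) n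
  have hs1 : ∀ n, s n ∈ t := fun n => by
    cases n with
    | zero => exact hg1 _
    | succ n => exact hg1 _
  have hs2 : StrictMono s := strictMono_nat_of_lt_succ fun n => hg2 _
  have hbdd : BddAbove (range s) := by
    apply BddAbove.of_not_isCofinal
    intro hcon
    have h1 : Order.cof W ≤ ℵ₀ := (cof_le hcon).trans
      (Cardinal.mk_le_aleph0_iff.2 (countable_range s))
    rw [cof_W] at h1
    exact absurd h1 (not_le.2 (aleph0_lt_aleph_one.trans H74CC.aleph1_lt_aleph2))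
  let := WellFoundedLT.toOrderBot W
  let := WellFoundedLT.conditionallyCompleteLinearOrderBot W
  have hlub : IsLUB (range s) (sSup (range s)) := isLUB_csSup (range_nonempty s) hbdd
  have hlt : ∀ n, s n < sSup (range s) := fun n =>
    (hs2 (Nat.lt_succ_self n)).trans_le (hlub.1 ⟨n + 1, rfl⟩)
  refine ⟨sSup (range s), ?_, ht.isLUB_mem (t := range s)
    (by rintro _ ⟨n, rfl⟩; exact hs1 n) (range_nonempty s) hlub⟩
  let s' : ℕ → Iio (sSup (range s)) := fun n => ⟨s n, hlt n⟩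
  have hs' : StrictMono s' := fun m n hmn => hs2 hmn
  have hc' : IsCofinal (range s') := by
    rintro ⟨z, hz⟩
    obtain ⟨_, ⟨n, rfl⟩, hn⟩ := (lt_isLUB_iff hlub).1 hz
    exact ⟨s' n, mem_range_self _, hn.le⟩
  change Order.cof (Iio (sSup (range s))) = ℵ₀
  rw [← cof_congr_of_strictMono hs' hc', cof_nat]

/-- From a club bounded sequence: countably many stationary sets of points of countable cofinality
which are not all stationary below the same point of cofinality `ω_1`. -/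
theorem stat_of_clubBounded (h : ClubBounded) :
    ∃ S : ℕ → Set W, (∀ k, IsStationary (S k) ∧ ∀ i ∈ S k, Order.cof (Iio i) = ℵ₀) ∧
      ∀ ν : W, Order.cof (Iio ν) = ℵ_ 1 → ∃ k, ¬ IsStationary {i : Iio ν | (i : W) ∈ S k} := by
  classical
  obtain ⟨ζ, hζ, x, hxζ, hx, hc⟩ := h
  have hcount : Countable ζ.ToType := by
    rw [← Cardinal.mk_le_aleph0_iff, mk_toType]
    rw [← ord_aleph, Cardinal.lt_ord, ← succ_aleph0, Order.lt_succ_iff] at hζ
    exact hζ
  let U : ℕ × ζ.ToType → Set W := fun p =>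
    {i | Order.cof (Iio i) = ℵ₀ ∧ (p.2.toOrd : Ordinal.{0}) ≤ x i p.1}
  obtain ⟨w0⟩ := nonempty_W
  have hζ0 : 0 < ζ := zero_le.trans_lt (hxζ w0 0)
  have hI : Nonempty {p : ℕ × ζ.ToType // IsStationary (U p)} := by
    refine ⟨⟨(0, ToType.mk ⟨0, hζ0⟩), stat_zero.mono fun i hi => ⟨hi, ?_⟩⟩⟩
    change ((ToType.mk.symm (ToType.mk _) : Set.Iio _) : Ordinal.{0}) ≤ _
    rw [OrderIso.symm_apply_apply]
    exact zero_le
  obtain ⟨f, hf⟩ := exists_surjective_nat {p : ℕ × ζ.ToType // IsStationary (U p)}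
  have hC : ∀ p : ℕ × ζ.ToType, ∃ C : Set W, IsClub C ∧ ((U p ∩ C).Nonempty → IsStationary (U p)) := by
    intro p
    by_cases hp : IsStationary (U p)
    · exact ⟨univ, IsClub.univ, fun _ => hp⟩
    · obtain ⟨C, hC1, hC2⟩ := not_isStationary_iff.1 hp
      exact ⟨C, hC1, fun hne => absurd hne (not_nonempty_iff_eq_empty.2 hC2.inter_eq)⟩
  choose C hC1 hC2 using hC
  refine ⟨fun k => U (f k).1, fun k => ⟨(f k).2, fun i hi => hi.1⟩, fun ν hν => ?_⟩
  by_contra hcon
  push Not at hcon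
  obtain ⟨c, hc1, hc2⟩ := hc ν hν
  obtain ⟨α, hα1, hα2, hα3⟩ := stat_zero
    (IsClub.inter cof_W_ne (IsClub.iInter_of_countable cof_W_ne hC1) (isClub_Ioi ν))
  obtain ⟨m, hm⟩ := (hx ν α hα3).exists
  let p : ℕ × ζ.ToType := (m, ToType.mk ⟨x α m, hxζ α m⟩)
  have hp : (p.2.toOrd : Ordinal.{0}) = x α m := by
    change ((ToType.mk.symm (ToType.mk _) : Set.Iio _) : Ordinal.{0}) = _
    rw [OrderIso.symm_apply_apply]
  have hpU : IsStationary (U p) := hC2 p ⟨α, ⟨hα1, hp.le⟩, mem_iInter.1 hα2 p⟩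
  obtain ⟨k, hk⟩ := hf ⟨p, hpU⟩
  obtain ⟨i, hi1, hi2⟩ := hcon k hc1
  have h1 : (i : W) ∈ U p := by
    have h2 : (i : W) ∈ U (f k).1 := hi1
    rwa [hk] at h2
  have h3 : x α m ≤ x i m := hp ▸ h1.2
  exact absurd (h3.trans (hc2 i hi2 m)) (not_le.2 hm)

end H25CC2
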